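import Pool.Agent.Helper774_AC.Main
import Pool.Agent.Helper774_AC.Pos
import Pool.Agent.Helper774_AC.Irr

/-!
# Complex symmetric truncated Toeplitz matrices and modified Aleksandrov-Clark bases

The answer to the question is negative, already for `3 × 3` matrices and an irreducible matrix.

In a modified Aleksandrov-Clark basis one has, for `i ≠ j`,
`m i j ‖k i‖ ‖k j‖ (w i conj (w j) - w j conj (w i)) = H j - H i`, with
`H j = ∫ φ conj (1 - conj α Θ) k j`.  Summing over a cycle of three indices gives a linear relation
between `m 0 1`, `m 1 2`, `m 2 0` whose three coefficients are real and nonzero (up to a common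
factor).  For the matrix `M0` the first two entries are real and the third one is not.
-/

set_option autoImplicit false

namespace Pool.Agent.Results.MP_3119c3_an.NotClark

open Pool.Agent.Helper774_AC

/-- The complex symmetric irreducible matrix `M0` is unitarily equivalent to a truncated Toeplitz
operator, but it is not the matrix of any truncated Toeplitz operator in any modified
Aleksandrov-Clark basis. -/
theorem result : M0.transpose = M0 ∧ IsIrreducible M0 ∧ UETTOMatrix M0 ∧ ¬ IsClarkMatrix M0 :=
  ⟨M0_symm, M0_irr, uetto_M0, not_clark⟩

end Pool.Agent.Results.MP_3119c3_an.NotClark
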